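import Mathlib
import Pool.Agent.N290.RL.Stm
import Pool.Agent.N290.RK.Stm3

/-!
# Project RM: functions with vanishing area integral and arbitrary functions: statements
-/

set_option autoImplicit false

open Complex MeasureTheory Set Filter Topology
open scoped ENNReal

namespace Pool.Agent.N290.RM

open Pool.Agent.N290.RJ Pool.Agent.N290.RK Pool.Agent.N290.RL

variable {d : ℕ}

/-- the tails of the area integral of the weight `a` are bounded by `τ` -/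
def Tail (τ : ℝ → ℝ) (a : E d → ℝ) : Prop := ∀ κ : ℝ, 0 < κ → ∀ z ∈ B d,
  ∫⁻ w in B d, ENNReal.ofReal ((if 1 - N w ≤ κ then a w ^ 2 else 0) * ker z w) ≤
    ENNReal.ofReal (τ κ)

/-- `τ(κ) → 0` as `κ → 0+` -/
def Van (τ : ℝ → ℝ) : Prop := Tendsto τ (𝓝[>] 0) (𝓝 0)

/-- the weight `(1 - |z|²)^(1/512)` -/
noncomputable def bw (z : E d) : ℝ := (1 - N z) ^ (1 / 512 : ℝ)

/-- tails for radial weights -/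
def TLV (d : ℕ) : Prop := ∀ (K : ℝ) (ω : ℝ → ℝ), 1 ≤ K → Slow K ω →
  ∫⁻ t in Ioo (0 : ℝ) 1, ENNReal.ofReal (ω t ^ 2 / t) ≠ ⊤ →
  ∃ τ : ℝ → ℝ, Van τ ∧ Tail τ (fun w : E d => ω (1 - N w))

/-- weights are small near the boundary if their tails are small -/
def KS (d : ℕ) : Prop := ∃ C : ℝ, 0 < C ∧ ∀ (τ : ℝ → ℝ) (a : E d → ℝ), AW a → Tail τ a →
  ∀ z ∈ B d, a z ^ 2 ≤ C * |τ (4 * (1 - N z))|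

/-- the weight `bw` -/
def BW (d : ℕ) : Prop := AW (bw : E d → ℝ) ∧ ∃ τ : ℝ → ℝ, Van τ ∧ Tail τ (bw : E d → ℝ)

/-- small solutions near the boundary, general weights -/
def SSG (d : ℕ) : Prop := ∀ (C₁ η : ℝ) (σ : ℝ → ℝ), 0 < C₁ → 0 < η → Van σ →
  ∃ t₀ C₂ : ℝ, 0 < t₀ ∧ 0 < C₂ ∧
  ∀ (f : E d → ℂ) (a : E d → ℝ) (P : ℕ → E d → ℂ), DifferentiableOn ℂ f (B d) → AW a →
  (∀ z ∈ B d, a z ≤ σ (1 - N z)) → (∀ z ∈ B d, bw z / 2 ≤ a z) →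
  (∀ z ∈ B d, ∀ ξ, ‖fderiv ℂ f z ξ‖ ≤ a z * len z ξ) →
  (∀ k, ContDiffOn ℝ 1 (P k) (B d)) →
  (∀ k, ∀ z ∈ B d, ‖P k z‖ ≤ C₁ ∧
    ‖P (k + 1) z - P k z‖ ≤ C₁ * a z * (st k z / ww z k) ∧
    ∀ ξ, ‖fderiv ℝ (P k) z ξ‖ ≤ C₁ * a z * ww z k ^ 3 * len z ξ) →
  ∀ k, ∃ v : E d → ℂ, ContDiffOn ℝ 1 v {z | z ∈ B d ∧ 1 - nm z < t₀} ∧
    ∀ z ∈ B d, 1 - nm z < t₀ → ‖v z‖ ≤ η ∧ ∀ ξ,
      ‖db v z ξ - P k z * starRingEnd ℂ (xj f k z ξ)‖ ≤ C₂ * a z ^ 2 * len z ξ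

/-- approximation by holomorphic functions near a boundary point, general weights -/
def LALG (d : ℕ) : Prop := ∀ (C R : ℝ) (τ : ℝ → ℝ), 0 < C → 0 < R → Van τ →
  ∀ η : ℝ, 0 < η → ∃ ρ : ℝ, 0 < ρ ∧ ∀ a : E d → ℝ, AW a → Tail τ a →
    ∀ p : E d, N p = 1 → ∀ h : E d → ℂ,
    ContDiffOn ℝ 1 h {z | z ∈ B d ∧ nm (z - p) < R} →
    (∀ z ∈ B d, nm (z - p) < R → ‖h z‖ ≤ C) →
    (∀ z ∈ B d, nm (z - p) < R → ∀ ξ, ‖db h z ξ‖ ≤ C * a z ^ 2 * len z ξ) →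
    ∃ H : E d → ℂ, DifferentiableOn ℂ H (B d) ∧
      ∀ z ∈ B d, nm (z - p) < ρ → ‖H z - h z‖ ≤ η

/-- local solutions for dilated data, general weights -/
def LTG (d : ℕ) : Prop := ∀ (M L : ℕ) (ε A : ℝ) (τ σ : ℝ → ℝ), 0 < ε → Van τ → Van σ →
  ∃ C ρ : ℝ, 0 < ρ ∧ ∀ p : E d, N p = 1 → ∀ (f : Fin M → E d → ℂ) (G κ : Fin L → E d → ℂ)
  (a : E d → ℝ), Arb ε A f G κ → AW a → Tail τ a → (∀ z ∈ B d, a z ≤ σ (1 - N z)) →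
  (∀ z ∈ B d, bw z / 2 ≤ a z) →
  (∀ j, ∀ z ∈ B d, ∀ ξ, ‖fderiv ℂ (f j) z ξ‖ ≤ a z * len z ξ) →
  ∀ k : ℕ, ∃ (g : Fin M → E d → ℂ) (h : Fin L → E d → ℂ),
    (∀ j, DifferentiableOn ℂ (g j) {z | z ∈ B d ∧ nm (z - p) < ρ}) ∧
    (∀ l, DifferentiableOn ℂ (h l) {z | z ∈ B d ∧ nm (z - p) < ρ}) ∧
    ∀ z ∈ B d, nm (z - p) < ρ → (∀ j, ‖g j z‖ ≤ C) ∧ (∀ l, ‖h l z‖ ≤ C) ∧
      ∑ j, f j (rad k • z) * g j z + ∑ l, G l (rad k • z) * h l z = 1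

/-- global solutions, one weight -/
def GBG (d : ℕ) : Prop := ∀ (M L : ℕ) (ε A : ℝ) (τ : ℝ → ℝ), 0 < ε → Van τ →
  ∃ C : ℝ, ∀ (f : Fin M → E d → ℂ) (G κ : Fin L → E d → ℂ) (a : E d → ℝ), Arb ε A f G κ →
  AW a → Tail τ a → (∀ j, ∀ z ∈ B d, ∀ ξ, ‖fderiv ℂ (f j) z ξ‖ ≤ a z * len z ξ) → Sol C f G

/-- bounded functions with vanishing area integral: `|s| ≤ b` and `|s'| ≤ b a` in the invariant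
metric, with a slowly varying weight `a` the tails of whose area integral are bounded by `τ` -/
def VC (τ : ℝ → ℝ) (b : ℝ) (s : E d → ℂ) : Prop := DifferentiableOn ℂ s (B d) ∧
  (∀ z ∈ B d, ‖s z‖ ≤ b) ∧ ∃ a : E d → ℝ, AW a ∧ Tail τ a ∧
    ∀ z ∈ B d, ∀ ξ, ‖fderiv ℂ s z ξ‖ ≤ b * (a z * len z ξ)

/-- the local theorem -/
def GPG (d : ℕ) : Prop := ∀ (M : ℕ) (δ : ℝ) (ι : Type) (F : ι → Fin M → E d → ℂ), 0 < δ →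
  (∀ a j, DifferentiableOn ℂ (F a j) (B d)) → (∀ a j, ∀ z ∈ B d, ‖F a j z‖ ≤ 1) →
  (∀ a, ∀ z ∈ B d, δ ≤ ∑ j, ‖F a j z‖) →
  (∀ p : E d, N p = 1 → ∃ (J : Finset (Fin M)) (ε A : ℝ) (W : ℝ → ℝ → ℝ) (Q R : ℝ → ℝ),
    0 < ε ∧ (∀ η : ℝ, 0 < η → Van (W η) ∧ 0 < R η) ∧
    ∀ a, (∀ j ∈ J, ∀ η : ℝ, 0 < η → ∃ s : E d → ℂ, VC (W η) (Q η) s ∧
        ∀ z ∈ B d, nm (z - p) < R η → ‖F a j z - s z‖ ≤ η) ∧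
      ∃ κ : Fin M → E d → ℂ,
        (∀ l, DifferentiableOn ℂ (κ l) {z | z ∈ B d ∧ nm (z - p) < ε ∧ ∀ j ∈ J, ‖F a j z‖ < ε}) ∧
        ∀ z ∈ B d, nm (z - p) < ε → (∀ j ∈ J, ‖F a j z‖ < ε) →
          (∀ l, ‖κ l z‖ ≤ A) ∧ ∑ l ∈ Jᶜ, F a l z * κ l z = 1) →
  ∃ C : ℝ, ∀ a, ∃ g : Fin M → E d → ℂ, (∀ j, DifferentiableOn ℂ (g j) (B d)) ∧
    ∀ z ∈ B d, (∀ j, ‖g j z‖ ≤ C) ∧ ∑ j, F a j z * g j z = 1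

/-- the global theorem, uniform closure -/
def GCG (d : ℕ) : Prop := ∀ (M L : ℕ) (ε A : ℝ) (W : ℝ → ℝ → ℝ) (Q : ℝ → ℝ), 0 < ε →
  (∀ η : ℝ, 0 < η → Van (W η)) →
  ∃ C : ℝ, ∀ (f : Fin M → E d → ℂ) (G κ : Fin L → E d → ℂ), Arb ε A f G κ →
  (∀ j, ∀ η : ℝ, 0 < η → ∃ s : E d → ℂ, VC (W η) (Q η) s ∧ ∀ z ∈ B d, ‖f j z - s z‖ ≤ η) →
  Sol C f G

/-- functions with square-Dini radial derivative have vanishing area integral -/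
def SDV (d : ℕ) : Prop := ∀ (ω : ℝ → ℝ) (b : ℝ), SDM ω → ∃ (τ : ℝ → ℝ) (b' : ℝ), Van τ ∧
  ∀ s : E d → ℂ, DifferentiableOn ℂ s (B d) → (∀ z ∈ B d, ‖s z‖ ≤ b) →
  (∀ z ∈ B d, (1 - nm z) * ‖fderiv ℂ s z z‖ ≤ ω (1 - nm z)) → VC τ b' s

/-- regular majorants of square Dini functions -/
def RW : Prop := ∀ ω : ℝ → ℝ, SDM ω → ∃ (α : ℝ → ℝ) (C : ℝ), 0 < C ∧
  ContDiffOn ℝ 1 α (Ioi 0) ∧ (∀ s t, 0 < s → s ≤ t → α s ≤ α t) ∧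
  (∀ t, 0 < t → t ≤ 1 → 0 < α t ∧ α t ≤ 1 ∧ ω t ≤ C * α t) ∧
  (∀ t, 0 < t → t ≤ 1 → 0 ≤ t * deriv α t ∧ t * deriv α t ≤ 1 / 512 * α t) ∧
  ∫⁻ t in Ioo (0 : ℝ) 1, ENNReal.ofReal (α t ^ 2 / t) ≠ ⊤

end Pool.Agent.N290.RM
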