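import Mathlib
import Pool.Agent.N290.RM.Stm
import Pool.Agent.N290.RL.All
import Pool.Agent.N526.RM.TLV
import Pool.Agent.N2.RM.BW
import Pool.Agent.N164.RM.KS
import Pool.Agent.N327.RM.SSG
import Pool.Agent.N385.RM.LALG
import Pool.Agent.N249.RM.LTG
import Pool.Agent.N285.RM.GBG
import Pool.Agent.N123.RM.GCG
import Pool.Agent.N195.RM.RW
import Pool.Agent.N18.RM.SDV
import Pool.Agent.N681.RJ.EU

/-!
# Project RM: all parts put together
-/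

set_option autoImplicit false

namespace Pool.Agent.N290.RM

open Pool.Agent.N290.RJ

theorem e_TLV (d : ℕ) : TLV d := Pool.Agent.N526.RM.TLV_of d (Pool.Agent.N458.RK.TL_of d (a_C9 d))
  (a_C9 d)

theorem e_BW (d : ℕ) : BW d := Pool.Agent.N2.RM.BW_of d (e_TLV d)

theorem e_KS (d : ℕ) : KS d := Pool.Agent.N164.RM.KS_of d (a_C3 d) (a_C4 d) (a_C4b d) (a_C6 d)

theorem e_SSG (d : ℕ) : SSG d := Pool.Agent.N327.RM.SSG_of d (a_S1 d)
  (Pool.Agent.N290.RL.c_YN d) (Pool.Agent.N290.RL.c_YF d)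

theorem e_LALG (d : ℕ) : LALG d := Pool.Agent.N385.RM.LALG_of d (a_Cmain d) (a_C9 d)

theorem e_LTG (d : ℕ) : LTG d := Pool.Agent.N249.RM.LTG_of d (Pool.Agent.N290.RL.c_YN d)
  (Pool.Agent.N290.RL.c_YF d) (Pool.Agent.N290.RL.c_XG d) (e_SSG d) (e_LALG d)

theorem e_GBG (d : ℕ) : GBG d := Pool.Agent.N285.RM.GBG_of d (e_KS d) (e_BW d) (e_LTG d)
  (Pool.Agent.N787.RJ.D4N d) (a_LOC d)

theorem e_SDV (d : ℕ) : SDV d := Pool.Agent.N18.RM.SDV_of d Pool.Agent.N195.RM.RW_proof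
  (Pool.Agent.N681.RJ.EU d) (e_TLV d)

end Pool.Agent.N290.RM
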