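import Mathlib
import Pool.Agent.N290.RM.All
import Pool.Agent.N881.RM.GPG

/-!
# Project RM: the final theorems on `E d`
-/

set_option autoImplicit false

namespace Pool.Agent.N290.RM

open Pool.Agent.N290.RJ

theorem e_GPG (d : ℕ) : GPG d := Pool.Agent.N881.RM.GPG_of d (e_BW d) (e_GBG d) (a_LOC d)

theorem e_GCG (d : ℕ) : GCG d := Pool.Agent.N123.RM.GCG_of d (e_GPG d)

end Pool.Agent.N290.RM
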