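import Mathlib
import Pool.Agent.N290.RM.Stm
import Pool.Agent.N290.RL.Fin
import Pool.Agent.N290.RJ.Tr
import Pool.Agent.N290.RJ.Fin
import Pool.Agent.N247.RJ.T1

/-!
# Transfer of the final theorems of RM to `Fin n → ℂ`
-/

set_option autoImplicit false

open Complex MeasureTheory Set Filter Topology
open scoped ENNReal

namespace Pool.Agent.N290.RM.Tr3

open Pool.Agent.N290.RJ Pool.Agent.N290.RJ.Tr Pool.Agent.N290.RK Pool.Agent.N290.RL

variable {d : ℕ}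

/-- slowly varying positive functions -/
def Sv {n : ℕ} (a : (Fin n → ℂ) → ℝ) : Prop :=
  ContDiffOn ℝ 1 a (ball n) ∧ (∀ z ∈ ball n, 0 < a z) ∧
    ∀ z ∈ ball n, ∀ ξ, |fderiv ℝ a z ξ| ≤ 1 / 256 * (a z * leng z ξ)

/-- the class of functions with area integral modulus `τ` and bound `b` -/
def Ac {n : ℕ} (τ : ℝ → ℝ) (b : ℝ) (s : (Fin n → ℂ) → ℂ) : Prop :=
  DifferentiableOn ℂ s (ball n) ∧ (∀ z ∈ ball n, ‖s z‖ ≤ b) ∧ ∃ a : (Fin n → ℂ) → ℝ, Sv a ∧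
    (∀ z ∈ ball n, ∀ ξ, ‖fderiv ℂ s z ξ‖ ≤ a z * leng z ξ) ∧
    ∀ κ : ℝ, 0 < κ → ∀ z ∈ ball n,
      ∫⁻ w in ball n, ENNReal.ofReal ((if 1 - nrm w ^ 2 ≤ κ then a w ^ 2 else 0) * kern z w) ≤
        ENNReal.ofReal (τ κ)

/-- transfer of the tails -/
theorem tail_T {T : E d ≃L[ℂ] (Fin (d + 1) → ℂ)} (h0 : ∀ z : E d, T z 0 = z.1)
    (h1 : ∀ (z : E d) (i : Fin d), T z i.succ = z.2 i) (hd : 1 ≤ d)
    (hT : MeasurePreserving (T : E d → Fin (d + 1) → ℂ)) (a : (Fin (d + 1) → ℂ) → ℝ) (κ : ℝ)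
    {z : E d} (hz : z ∈ B d) :
    ∫⁻ w in ball (d + 1), ENNReal.ofReal
        ((if 1 - nrm w ^ 2 ≤ κ then a w ^ 2 else 0) * kern (T z) w) =
      ∫⁻ w in B d, ENNReal.ofReal ((if 1 - N w ≤ κ then a (T w) ^ 2 else 0) * ker z w) := by
  have h := JT h0 h1 hd hT (fun w => if 1 - nrm w ^ 2 ≤ κ then a w else 0) (fun _ => 0) hz
  unfold JJ at h
  have h2 : ∀ w, (if 1 - nrm w ^ 2 ≤ κ then a w ^ 2 else 0) * kern (T z) w =
      (if 1 - nrm w ^ 2 ≤ κ then a w else 0) * ((if 1 - nrm w ^ 2 ≤ κ then a w else 0) + 0) *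
        kern (T z) w := by
    intro w; split_ifs <;> ring
  have h3 : ∀ w, (if 1 - N w ≤ κ then a (T w) ^ 2 else 0) * ker z w =
      (if 1 - nrm (T w) ^ 2 ≤ κ then a (T w) else 0) *
        ((if 1 - nrm (T w) ^ 2 ≤ κ then a (T w) else 0) + 0) * ker z w := by
    intro w
    rw [nm_T h0 h1, nm_sq]
    split_ifs <;> ring
  simp only [h2, h3]
  exact h

theorem vc_T {T : E d ≃L[ℂ] (Fin (d + 1) → ℂ)} (h0 : ∀ z : E d, T z 0 = z.1)
    (h1 : ∀ (z : E d) (i : Fin d), T z i.succ = z.2 i) (hd : 1 ≤ d)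
    (hT : MeasurePreserving (T : E d → Fin (d + 1) → ℂ)) (hSP : SP d)
    {τ : ℝ → ℝ} {b : ℝ} {s : (Fin (d + 1) → ℂ) → ℂ} (hs : Ac τ b s) :
    VC τ (2 * (|b| + 1)) (fun z => s (T z)) := by
  obtain ⟨hs1, hs2, a, ha, hsa, hat⟩ := hs
  have hmem := mem_T h0 h1
  have hopen : IsOpen (ball (d + 1)) := ball_open (d + 1)
  have hTc : ContDiff ℝ 1 (fun z : E d => T z) :=
    ((T : E d →L[ℂ] (Fin (d + 1) → ℂ)).restrictScalars ℝ).contDiff
  have had : ∀ z ∈ ball (d + 1), DifferentiableAt ℝ a z := fun z hz =>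
    (ha.1.differentiableOn (by norm_num)).differentiableAt (hopen.mem_nhds hz)
  have hsv : SV (fun z => a (T z)) := by
    refine ⟨ha.1.comp hTc.contDiffOn fun z hz => (hmem z).2 hz,
      fun z hz => ha.2.1 _ ((hmem z).2 hz), fun z hz ξ => ?_⟩
    have h2 : HasFDerivAt (fun w => a (T w)) ((fderiv ℝ a (T z)).comp
        ((T : E d →L[ℂ] (Fin (d + 1) → ℂ)).restrictScalars ℝ)) z :=
      (had _ ((hmem z).2 hz)).hasFDerivAt.comp z (T.hasFDerivAt.restrictScalars ℝ)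
    rw [h2.fderiv, ← len_T h0 h1]
    exact ha.2.2 _ ((hmem z).2 hz) (T ξ)
  have hb1 : 0 < |b| + 1 := by positivity
  have hhol := hol_T h0 h1 hs1
  refine ⟨hhol, fun z hz => ?_, fun z => a (T z) / (1 + a (T z)), aw_of_sv hsv,
    fun κ hκ z hz => ?_, fun z hz ξ => ?_⟩
  · have h2 := hs2 _ ((hmem z).2 hz)
    have h3 := le_abs_self b
    linarith
  · have h2 := hat κ hκ _ ((hmem z).2 hz)
    rw [tail_T h0 h1 hd hT a κ hz] at h2
    refine le_trans ?_ h2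
    refine setLIntegral_mono' B_meas fun w hw => ENNReal.ofReal_le_ofReal ?_
    have ha0 := hsv.2.1 w hw
    refine mul_le_mul_of_nonneg_right ?_ (ker_nonneg z w)
    split_ifs
    · refine pow_le_pow_left₀ (by positivity) ?_ 2
      rw [div_le_iff₀ (by positivity)]
      nlinarith
    · exact le_rfl
  · -- the gradient
    have h2 : ‖fderiv ℂ (fun z => s (T z)) z ξ‖ ≤ a (T z) * len z ξ := by
      rw [fd_T h0 h1 hs1 hz, ← len_T h0 h1]
      exact hsa _ ((hmem z).2 hz) (T ξ)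
    have h3 : ‖fderiv ℂ (fun z => s (T z)) z ξ‖ ≤ (|b| + 1) * len z ξ := by
      have hc : DifferentiableOn ℂ (fun z => ((|b| + 1 : ℝ) : ℂ)⁻¹ * s (T z)) (B d) :=
        hhol.const_mul _
      have h4 := hSP _ hc (fun w hw => by
        have hnn : ‖(((|b| + 1 : ℝ)) : ℂ)⁻¹‖ = (|b| + 1)⁻¹ := by
          rw [norm_inv, Complex.norm_real, Real.norm_eq_abs, abs_of_pos hb1]
        rw [norm_mul, hnn, inv_mul_le_iff₀ hb1, mul_one]
        have h5 := hs2 _ ((hmem w).2 hw)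
        have h6 := le_abs_self b
        linarith) z hz ξ
      have h5 : fderiv ℂ (fun z => ((|b| + 1 : ℝ) : ℂ)⁻¹ * s (T z)) z =
          ((|b| + 1 : ℝ) : ℂ)⁻¹ • fderiv ℂ (fun z => s (T z)) z :=
        fderiv_const_mul (hhol.differentiableAt (B_open.mem_nhds hz)) _
      have hnn : ‖(((|b| + 1 : ℝ)) : ℂ)⁻¹‖ = (|b| + 1)⁻¹ := by
        rw [norm_inv, Complex.norm_real, Real.norm_eq_abs, abs_of_pos hb1]
      rw [h5, smul_apply, smul_eq_mul, norm_mul, hnn, inv_mul_le_iff₀ hb1] at h4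
      exact h4
    have ha0 := hsv.2.1 z hz
    have hL := len_nonneg z ξ
    have h6 : ‖fderiv ℂ (fun z => s (T z)) z ξ‖ * (1 + a (T z)) ≤
        2 * (|b| + 1) * (a (T z) * len z ξ) := by
      have h7 : ‖fderiv ℂ (fun z => s (T z)) z ξ‖ * a (T z) ≤
          (|b| + 1) * len z ξ * a (T z) := mul_le_mul_of_nonneg_right h3 ha0.le
      have h8 : a (T z) * len z ξ ≤ (|b| + 1) * (a (T z) * len z ξ) := by
        have h9 : 0 ≤ a (T z) * len z ξ := mul_nonneg ha0.le hL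
        have h10 := abs_nonneg b
        nlinarith
      nlinarith
    show _ ≤ 2 * (|b| + 1) * (a (T z) / (1 + a (T z)) * len z ξ)
    have h11 : 2 * (|b| + 1) * (a (T z) / (1 + a (T z)) * len z ξ) =
        2 * (|b| + 1) * (a (T z) * len z ξ) / (1 + a (T z)) := by ring
    rw [h11, le_div_iff₀ (by positivity)]
    exact h6

/-- holomorphic, bounded by one -/
def UH {n : ℕ} (f : (Fin n → ℂ) → ℂ) : Prop :=
  DifferentiableOn ℂ f (ball n) ∧ ∀ z ∈ ball n, ‖f z‖ ≤ 1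

theorem partA (hd : 1 ≤ d) (h : GCG d) (hSP : SP d) (M L : ℕ) (ε A : ℝ) (hε : 0 < ε)
    (W : ℝ → ℝ → ℝ) (Q : ℝ → ℝ) (hW : ∀ η : ℝ, 0 < η → Van (W η)) :
    ∃ C : ℝ, ∀ (f : Fin M → (Fin (d + 1) → ℂ) → ℂ) (G κ : Fin L → (Fin (d + 1) → ℂ) → ℂ),
      (∀ j, UH (f j)) → (∀ l, UH (G l)) →
      (∀ j, ∀ η : ℝ, 0 < η → ∃ s : (Fin (d + 1) → ℂ) → ℂ, Ac (W η) (Q η) s ∧
        ∀ z ∈ ball (d + 1), ‖f j z - s z‖ ≤ η) →
      (∀ l, DifferentiableOn ℂ (κ l) {z | z ∈ ball (d + 1) ∧ ∀ j, ‖f j z‖ < ε}) →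
      (∀ z ∈ ball (d + 1), (∀ j, ‖f j z‖ < ε) →
        (∀ l, ‖κ l z‖ ≤ A) ∧ ∑ l, G l z * κ l z = 1) →
      ∃ (g : Fin M → (Fin (d + 1) → ℂ) → ℂ) (h : Fin L → (Fin (d + 1) → ℂ) → ℂ),
        (∀ j, DifferentiableOn ℂ (g j) (ball (d + 1))) ∧
        (∀ l, DifferentiableOn ℂ (h l) (ball (d + 1))) ∧
        ∀ z ∈ ball (d + 1), (∀ j, ‖g j z‖ ≤ C) ∧ (∀ l, ‖h l z‖ ≤ C) ∧
          ∑ j, f j z * g j z + ∑ l, G l z * h l z = 1 := by
  obtain ⟨T, h0, h1, hT⟩ := Pool.Agent.N247.RJ.T1 d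
  have hmem := mem_T h0 h1
  have hmem' := mem_T' h0 h1
  obtain ⟨C, hC⟩ := h M L ε A W (fun η => 2 * (|Q η| + 1)) hε hW
  refine ⟨C, fun f G κ hf hG hs hκ1 hκ2 => ?_⟩
  obtain ⟨g, k, hg, hk, hgk⟩ := hC (fun j z => f j (T z)) (fun l z => G l (T z))
    (fun l z => κ l (T z))
    ⟨fun j => hol_T h0 h1 (hf j).1, fun j z hz => (hf j).2 _ ((hmem z).2 hz),
      fun l => hol_T h0 h1 (hG l).1, fun l z hz => (hG l).2 _ ((hmem z).2 hz),
      fun l => (hκ1 l).comp T.differentiable.differentiableOn fun z hz =>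
        ⟨(hmem z).2 hz.1, hz.2⟩,
      fun l z hz hz2 => (hκ2 _ ((hmem z).2 hz) hz2).1 l,
      fun z hz hz2 => (hκ2 _ ((hmem z).2 hz) hz2).2⟩
    (fun j η hη => by
      obtain ⟨s, hs1, hfs⟩ := hs j η hη
      exact ⟨fun z => s (T z), vc_T h0 h1 hd hT hSP hs1, fun z hz => hfs _ ((hmem z).2 hz)⟩)
  refine ⟨fun j z => g j (T.symm z), fun l z => k l (T.symm z), fun j => hol_T' h0 h1 (hg j),
    fun l => hol_T' h0 h1 (hk l), fun z hz => ?_⟩
  have h2 := hgk _ ((hmem' z).2 hz)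
  simp only [T.apply_symm_apply] at h2
  exact h2

/-- near `p`, `f` is uniformly approximable by functions with vanishing area integral -/
def Va {n : ℕ} (p : Fin n → ℂ) (f : (Fin n → ℂ) → ℂ) : Prop :=
  ∀ η : ℝ, 0 < η → ∃ (s : (Fin n → ℂ) → ℂ) (τ : ℝ → ℝ) (b r : ℝ), Van τ ∧ 0 < r ∧
    Ac τ b s ∧ ∀ z ∈ ball n, nrm (z - p) < r → ‖f z - s z‖ ≤ η

theorem van_sum {M : ℕ} {J : Finset (Fin M)} {τ : Fin M → ℝ → ℝ} (h : ∀ j ∈ J, Van (τ j)) :
    Van (fun t => ∑ j ∈ J, |τ j t|) := by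
  unfold Van
  have h2 : Tendsto (fun t => ∑ j ∈ J, |τ j t|) (𝓝[>] 0) (𝓝 (∑ j ∈ J, |(0 : ℝ)|)) :=
    tendsto_finsetSum _ fun j hj => (h j hj).abs
  simpa using h2

theorem vc_mono {τ τ' : ℝ → ℝ} {b b' : ℝ} {s : E d → ℂ} (h : VC τ b s)
    (hτ : ∀ t, τ t ≤ τ' t) (hb : b ≤ b') : VC τ' b' s := by
  obtain ⟨h1, h2, a, ha, hat, hs⟩ := h
  refine ⟨h1, fun z hz => (h2 z hz).trans hb, a, ha, fun κ hκ z hz =>
    (hat κ hκ z hz).trans (ENNReal.ofReal_le_ofReal (hτ κ)), fun z hz ξ => (hs z hz ξ).trans ?_⟩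
  exact mul_le_mul_of_nonneg_right hb (mul_nonneg (ha.a2 z hz).1.le (len_nonneg _ _))

theorem partB (hd : 1 ≤ d) (h : GPG d) (hSP : SP d) (M : ℕ) (δ : ℝ) (hδ : 0 < δ)
    (F : Fin M → (Fin (d + 1) → ℂ) → ℂ)
    (hF : ∀ j, UH (F j)) (hlow : ∀ z ∈ ball (d + 1), δ ≤ ∑ j, ‖F j z‖)
    (hloc : ∀ p : Fin (d + 1) → ℂ, nrm p = 1 → ∃ (J : Finset (Fin M)) (ε A : ℝ), 0 < ε ∧
      (∀ j ∈ J, Va p (F j)) ∧ ∃ κ : Fin M → (Fin (d + 1) → ℂ) → ℂ,
        (∀ l, DifferentiableOn ℂ (κ l)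
          {z | z ∈ ball (d + 1) ∧ nrm (z - p) < ε ∧ ∀ j ∈ J, ‖F j z‖ < ε}) ∧
        ∀ z ∈ ball (d + 1), nrm (z - p) < ε → (∀ j ∈ J, ‖F j z‖ < ε) →
          (∀ l, ‖κ l z‖ ≤ A) ∧ ∑ l ∈ Jᶜ, F l z * κ l z = 1) :
    ∃ (g : Fin M → (Fin (d + 1) → ℂ) → ℂ) (C : ℝ),
      (∀ j, DifferentiableOn ℂ (g j) (ball (d + 1))) ∧
      ∀ z ∈ ball (d + 1), (∀ j, ‖g j z‖ ≤ C) ∧ ∑ j, F j z * g j z = 1 := by
  obtain ⟨T, h0, h1, hT⟩ := Pool.Agent.N247.RJ.T1 d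
  have hmem := mem_T h0 h1
  have hmem' := mem_T' h0 h1
  obtain ⟨C, hC⟩ := h M δ Unit (fun _ j z => F j (T z)) hδ
    (fun _ j => hol_T h0 h1 (hF j).1) (fun _ j z hz => (hF j).2 _ ((hmem z).2 hz))
    (fun _ z hz => hlow _ ((hmem z).2 hz))
    (fun p hp => by
      have hp1 : nrm (T p) = 1 := by
        rw [nm_T h0 h1, nm, hp, Real.sqrt_one]
      obtain ⟨J, ε, A, hε, hJ, κ, hκ1, hκ2⟩ := hloc (T p) hp1
      have hsub : ∀ z : E d, nrm (T z - T p) = nm (z - p) := by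
        intro z
        rw [← map_sub, nm_T h0 h1]
      -- choose the approximants
      choose! s τ b r hτ hr hs hfs using hJ
      refine ⟨J, ε, A, fun η t => ∑ j ∈ J, |τ j η t|,
        fun η => ∑ j ∈ J, 2 * (|b j η| + 1),
        fun η => if hJn : J.Nonempty then J.inf' hJn fun j => r j η else 1, hε,
        fun η hη => ⟨van_sum fun j hj => hτ j hj η hη, ?_⟩, fun _ => ⟨fun j hj η hη => ?_, ?_⟩⟩
      · split_ifs with hJn
        · rw [Finset.lt_inf'_iff]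
          exact fun j hj => hr j hj η hη
        · exact one_pos
      · have hJn : J.Nonempty := ⟨j, hj⟩
        refine ⟨fun z => s j η (T z), vc_mono
          (vc_T h0 h1 hd hT hSP (hs j hj η hη)) (fun t => ?_) ?_, fun z hz hz2 => ?_⟩
        · exact (le_abs_self _).trans (Finset.single_le_sum (f := fun j => |τ j η t|)
            (fun i _ => abs_nonneg _) hj)
        · exact Finset.single_le_sum (f := fun j => 2 * (|b j η| + 1))
            (fun i _ => by positivity) hj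
        · refine hfs j hj η hη _ ((hmem z).2 hz) ?_
          rw [hsub]
          refine lt_of_lt_of_le hz2 ?_
          simp only [dif_pos hJn]
          exact Finset.inf'_le _ hj
      · refine ⟨fun l z => κ l (T z), fun l => (hκ1 l).comp
          T.differentiable.differentiableOn fun z hz => ⟨(hmem z).2 hz.1, ?_, hz.2.2⟩,
          fun z hz hz2 hz3 => hκ2 _ ((hmem z).2 hz) ?_ hz3⟩
        · rw [hsub]; exact hz.2.1
        · rw [hsub]; exact hz2)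
  obtain ⟨g, hg1, hg2⟩ := hC ()
  refine ⟨fun j z => g j (T.symm z), C, fun j => hol_T' h0 h1 (hg1 j), fun z hz => ?_⟩
  have h2 := hg2 _ ((hmem' z).2 hz)
  simp only [T.apply_symm_apply] at h2
  exact h2

/-- functions with square-Dini radial derivative belong to the class -/
theorem partD (hd : 1 ≤ d) (h : SDV d) (ω : ℝ → ℝ) (b : ℝ) (hω : SDM ω) :
    ∃ τ : ℝ → ℝ, Van τ ∧ ∀ s : (Fin (d + 1) → ℂ) → ℂ, DifferentiableOn ℂ s (ball (d + 1)) →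
      (∀ z ∈ ball (d + 1), ‖s z‖ ≤ b) →
      (∀ z ∈ ball (d + 1), (1 - nrm z) * ‖fderiv ℂ s z z‖ ≤ ω (1 - nrm z)) → Ac τ b s := by
  obtain ⟨T, h0, h1, hT⟩ := Pool.Agent.N247.RJ.T1 d
  have hmem := mem_T h0 h1
  have hmem' := mem_T' h0 h1
  obtain ⟨τ, b', hτ, H⟩ := h ω b hω
  obtain ⟨c, hc⟩ : ∃ c : ℝ, c = |b'| + 1 := ⟨_, rfl⟩
  have hc0 : 0 < c := by rw [hc]; positivity
  have hbc : b' ≤ c := by rw [hc]; linarith [le_abs_self b']
  refine ⟨fun t => c ^ 2 * |τ t|, ?_, fun s hs1 hs2 hs3 => ?_⟩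
  · unfold Van
    have h2 := (hτ.abs).const_mul (c ^ 2)
    simpa using h2
  obtain ⟨-, -, a, ha, hat, hsa⟩ := H (fun z => s (T z)) (hol_T h0 h1 hs1)
    (fun z hz => hs2 _ ((hmem z).2 hz)) (fun z hz => by
      rw [fd_T h0 h1 hs1 hz, ← nm_T h0 h1]
      exact hs3 _ ((hmem z).2 hz))
  have hTc : ContDiff ℝ 1 (fun z : Fin (d + 1) → ℂ => T.symm z) :=
    ((T.symm : (Fin (d + 1) → ℂ) →L[ℂ] E d).restrictScalars ℝ).contDiff
  have had : ∀ z ∈ B d, DifferentiableAt ℝ a z := fun z hz =>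
    (ha.a1.differentiableOn (by norm_num)).differentiableAt (B_open.mem_nhds hz)
  have hlen : ∀ z ξ : Fin (d + 1) → ℂ, len (T.symm z) (T.symm ξ) = leng z ξ := by
    intro z ξ
    rw [← len_T h0 h1, T.apply_symm_apply, T.apply_symm_apply]
  refine ⟨hs1, hs2, fun z => c * a (T.symm z), ⟨?_, fun z hz => ?_, fun z hz ξ => ?_⟩,
    fun z hz ξ => ?_, fun κ hκ z hz => ?_⟩
  · exact contDiffOn_const.mul (ha.a1.comp hTc.contDiffOn fun z hz => (hmem' z).2 hz)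
  · exact mul_pos hc0 (ha.a2 _ ((hmem' z).2 hz)).1
  · have h2 : HasFDerivAt (fun w => a (T.symm w)) ((fderiv ℝ a (T.symm z)).comp
        ((T.symm : (Fin (d + 1) → ℂ) →L[ℂ] E d).restrictScalars ℝ)) z :=
      (had _ ((hmem' z).2 hz)).hasFDerivAt.comp z (T.symm.hasFDerivAt.restrictScalars ℝ)
    rw [(h2.const_mul c).fderiv]
    have h3 := ha.a3 _ ((hmem' z).2 hz) (T.symm ξ)
    rw [hlen] at h3
    have h4 : (c • (fderiv ℝ a (T.symm z)).comp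
        ((T.symm : (Fin (d + 1) → ℂ) →L[ℂ] E d).restrictScalars ℝ)) ξ =
        c * fderiv ℝ a (T.symm z) (T.symm ξ) := rfl
    rw [h4, abs_mul, abs_of_pos hc0]
    calc c * |fderiv ℝ a (T.symm z) (T.symm ξ)| ≤ c * (1 / 256 * (a (T.symm z) * leng z ξ)) :=
          mul_le_mul_of_nonneg_left h3 hc0.le
      _ = _ := by ring
  · have h2 := hsa _ ((hmem' z).2 hz) (T.symm ξ)
    rw [fd_T h0 h1 hs1 ((hmem' z).2 hz), T.apply_symm_apply, T.apply_symm_apply, hlen] at h2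
    refine h2.trans ?_
    rw [mul_assoc]
    refine mul_le_mul_of_nonneg_right hbc (mul_nonneg (ha.a2 _ ((hmem' z).2 hz)).1.le ?_)
    rw [← hlen]
    exact len_nonneg _ _
  · have hzB : T.symm z ∈ B d := (hmem' z).2 hz
    have h2 := hat κ hκ _ hzB
    have h3 := tail_T h0 h1 hd hT (fun w => c * a (T.symm w)) κ hzB
    rw [T.apply_symm_apply] at h3
    simp only [] at h3 ⊢
    rw [h3]
    have h4 : ∀ w : E d, ENNReal.ofReal ((if 1 - N w ≤ κ then (c * a (T.symm (T w))) ^ 2 else 0) *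
        ker (T.symm z) w) = ENNReal.ofReal (c ^ 2) *
        ENNReal.ofReal ((if 1 - N w ≤ κ then a w ^ 2 else 0) * ker (T.symm z) w) := by
      intro w
      rw [T.symm_apply_apply, ← ENNReal.ofReal_mul (by positivity)]
      congr 1
      split_ifs <;> ring
    simp only [h4]
    rw [lintegral_const_mul' _ _ ENNReal.ofReal_ne_top, ENNReal.ofReal_mul (by positivity)]
    gcongr
    exact h2.trans (ENNReal.ofReal_le_ofReal (le_abs_self _))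

end Pool.Agent.N290.RM.Tr3
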